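import Pool.Agent.X64.NO1.Cells

/-!
# Functions that the kernel evaluates quickly

Boolean connectives and list quantifiers by recursors, and the sign of an orientation of natural
points by comparisons of natural numbers.
-/

namespace Pool.Agent.X64.Fast

open Pool.Agent.X64.Hex

/-- Conjunction. -/
noncomputable def an (a b : Bool) : Bool := @Bool.rec (fun _ => Bool) false b a

/-- Disjunction. -/
noncomputable def orr (a b : Bool) : Bool := @Bool.rec (fun _ => Bool) b true a

/-- Negation. -/
noncomputable def nt (a : Bool) : Bool := @Bool.rec (fun _ => Bool) true false a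

theorem an_iff {a b : Bool} : an a b = true ↔ a = true ∧ b = true := by
  cases a
  · exact ⟨fun h => absurd h Bool.false_ne_true, fun h => absurd h.1 Bool.false_ne_true⟩
  · exact ⟨fun h => ⟨rfl, h⟩, fun h => h.2⟩

theorem orr_iff {a b : Bool} : orr a b = true ↔ a = true ∨ b = true := by
  cases a
  · exact ⟨fun h => Or.inr h, fun h => h.resolve_left Bool.false_ne_true⟩
  · exact ⟨fun _ => Or.inl rfl, fun _ => rfl⟩

theorem nt_iff {a : Bool} : nt a = true ↔ a = false := by
  cases a
  · exact ⟨fun _ => rfl, fun _ => rfl⟩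
  · exact ⟨fun h => absurd h Bool.false_ne_true, fun h => absurd h.symm Bool.false_ne_true⟩

/-- All elements of a list. -/
noncomputable def al {α : Type} (p : α → Bool) (l : List α) : Bool :=
  @List.rec α (fun _ => Bool) true (fun a _ ih => @Bool.rec (fun _ => Bool) false ih (p a)) l

/-- Some element of a list. -/
noncomputable def ay {α : Type} (p : α → Bool) (l : List α) : Bool :=
  @List.rec α (fun _ => Bool) false (fun a _ ih => @Bool.rec (fun _ => Bool) ih true (p a)) l

theorem al_cons {α : Type} (p : α → Bool) (a : α) (l : List α) :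
    al p (a :: l) = an (p a) (al p l) := rfl

theorem ay_cons {α : Type} (p : α → Bool) (a : α) (l : List α) :
    ay p (a :: l) = orr (p a) (ay p l) := rfl

theorem al_iff {α : Type} {p : α → Bool} {l : List α} :
    al p l = true ↔ ∀ a ∈ l, p a = true := by
  induction l with
  | nil => exact ⟨fun _ a h => absurd h List.not_mem_nil, fun _ => rfl⟩
  | cons a l ih => rw [al_cons, an_iff, ih, List.forall_mem_cons]

theorem ay_iff {α : Type} {p : α → Bool} {l : List α} :
    ay p l = true ↔ ∃ a ∈ l, p a = true := by
  induction l with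
  | nil => exact ⟨fun h => absurd h Bool.false_ne_true, fun ⟨a, h, _⟩ => absurd h List.not_mem_nil⟩
  | cons a l ih => rw [ay_cons, orr_iff, ih, List.exists_mem_cons_iff]

/-- All pairs of elements of a list at different places. -/
noncomputable def al2 {α : Type} (p : α → α → Bool) (l : List α) : Bool :=
  @List.rec α (fun _ => Bool) true
    (fun a l ih => @Bool.rec (fun _ => Bool) false ih (al (p a) l)) l

theorem al2_cons {α : Type} (p : α → α → Bool) (a : α) (l : List α) :
    al2 p (a :: l) = an (al (p a) l) (al2 p l) := rfl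

theorem al2_spec {α : Type} {p : α → α → Bool} : ∀ {l : List α}, al2 p l = true →
    ∀ a ∈ l, ∀ b ∈ l, a = b ∨ p a b = true ∨ p b a = true := by
  intro l
  induction l with
  | nil =>
    intro _ e he
    exact absurd he List.not_mem_nil
  | cons a l ih =>
    intro h e he f hf
    rw [al2_cons, an_iff, al_iff] at h
    rcases List.mem_cons.1 he with he' | he'
    · rcases List.mem_cons.1 hf with hf' | hf'
      · exact Or.inl (he'.trans hf'.symm)
      · rw [he']
        exact Or.inr (Or.inl (h.1 f hf'))
    · rcases List.mem_cons.1 hf with hf' | hf'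
      · rw [hf']
        exact Or.inr (Or.inr (h.1 e he'))
      · exact ih h.2 e he' f hf'

theorem al2_pairwise {α : Type} {p : α → α → Bool} : ∀ {l : List α}, al2 p l = true →
    l.Pairwise fun a b => p a b = true := by
  intro l
  induction l with
  | nil => exact fun _ => List.Pairwise.nil
  | cons a l ih =>
    intro h
    rw [al2_cons, an_iff, al_iff] at h
    exact List.Pairwise.cons h.1 (ih h.2)

/-- The elements of a list with a property. -/
noncomputable def fl {α : Type} (p : α → Bool) (l : List α) : List α :=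
  @List.rec α (fun _ => List α) [] (fun a _ ih => @Bool.rec (fun _ => List α) ih (a :: ih) (p a)) l

theorem mem_fl {α : Type} {p : α → Bool} {l : List α} {a : α} :
    a ∈ fl p l ↔ a ∈ l ∧ p a = true := by
  induction l with
  | nil => exact ⟨fun h => absurd h List.not_mem_nil, fun h => absurd h.1 List.not_mem_nil⟩
  | cons b l ih =>
    have h0 : fl p (b :: l) = @Bool.rec (fun _ => List α) (fl p l) (b :: fl p l) (p b) := rfl
    rw [h0]
    rcases hb : p b with _ | _
    · show a ∈ fl p l ↔ _
      rw [ih, List.mem_cons]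
      constructor
      · exact fun h => ⟨Or.inr h.1, h.2⟩
      · rintro ⟨rfl | h, h2⟩
        · rw [hb] at h2
          exact absurd h2 Bool.false_ne_true
        · exact ⟨h, h2⟩
    · show a ∈ b :: fl p l ↔ _
      rw [List.mem_cons, ih, List.mem_cons]
      constructor
      · rintro (rfl | h)
        · exact ⟨Or.inl rfl, hb⟩
        · exact ⟨Or.inr h.1, h.2⟩
      · rintro ⟨rfl | h, h2⟩
        · exact Or.inl rfl
        · exact Or.inr ⟨h, h2⟩

/-- All numbers below `n`. -/
noncomputable def an_lt (p : ℕ → Bool) (n : ℕ) : Bool :=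
  @Nat.rec (fun _ => Bool) true (fun k ih => @Bool.rec (fun _ => Bool) false ih (p k)) n

theorem an_lt_spec {p : ℕ → Bool} {n : ℕ} (h : an_lt p n = true) : ∀ k < n, p k = true := by
  induction n with
  | zero => exact fun k hk => absurd hk (Nat.not_lt_zero k)
  | succ n ih =>
    have h' : an (p n) (an_lt p n) = true := h
    rw [an_iff] at h'
    intro k hk
    rcases Nat.lt_succ_iff_lt_or_eq.1 hk with hk | rfl
    · exact ih h'.2 k hk
    · exact h'.1

/-- The orientation of a triple of natural points is positive. -/
def gt (ax ay bx by' cx cy : ℕ) : Bool :=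
  Nat.ble (Nat.succ (Nat.add (Nat.add (Nat.mul bx ay) (Nat.mul ax cy)) (Nat.mul by' cx)))
    (Nat.add (Nat.add (Nat.mul bx cy) (Nat.mul by' ax)) (Nat.mul ay cx))

/-- The orientation of a triple of natural points is negative. -/
def lt (ax ay bx by' cx cy : ℕ) : Bool :=
  Nat.ble (Nat.succ (Nat.add (Nat.add (Nat.mul bx cy) (Nat.mul by' ax)) (Nat.mul ay cx)))
    (Nat.add (Nat.add (Nat.mul bx ay) (Nat.mul ax cy)) (Nat.mul by' cx))

theorem gt_iff (ax ay bx by' cx cy : ℕ) : gt ax ay bx by' cx cy = true ↔
    0 < oi ((ax : ℤ), (ay : ℤ)) ((bx : ℤ), (by' : ℤ)) ((cx : ℤ), (cy : ℤ)) := by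
  have h0 : gt ax ay bx by' cx cy = true ↔ bx * ay + ax * cy + by' * cx <
      bx * cy + by' * ax + ay * cx := iff_of_eq Nat.ble_eq
  rw [h0]
  unfold oi
  dsimp only
  constructor
  · intro h
    have h' : ((bx * ay + ax * cy + by' * cx : ℕ) : ℤ) <
      (bx * cy + by' * ax + ay * cx : ℕ) := by exact_mod_cast h
    push_cast at h'
    linarith
  · intro h
    have h' : ((bx * ay + ax * cy + by' * cx : ℕ) : ℤ) <
      (bx * cy + by' * ax + ay * cx : ℕ) := by
      push_cast
      linarith
    exact_mod_cast h'

theorem lt_iff (ax ay bx by' cx cy : ℕ) : lt ax ay bx by' cx cy = true ↔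
    oi ((ax : ℤ), (ay : ℤ)) ((bx : ℤ), (by' : ℤ)) ((cx : ℤ), (cy : ℤ)) < 0 := by
  have h0 : lt ax ay bx by' cx cy = true ↔ bx * cy + by' * ax + ay * cx <
      bx * ay + ax * cy + by' * cx := iff_of_eq Nat.ble_eq
  rw [h0]
  unfold oi
  dsimp only
  constructor
  · intro h
    have h' : ((bx * cy + by' * ax + ay * cx : ℕ) : ℤ) <
      (bx * ay + ax * cy + by' * cx : ℕ) := by exact_mod_cast h
    push_cast at h'
    linarith
  · intro h
    have h' : ((bx * cy + by' * ax + ay * cx : ℕ) : ℤ) <
      (bx * ay + ax * cy + by' * cx : ℕ) := by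
      push_cast
      linarith
    exact_mod_cast h'

end Pool.Agent.X64.Fast
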