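import Pool.Agent.X64.Fast.Basic

/-!
# A quickly evaluated covering certificate

Lines are given by ordered pairs of points with natural coordinates.
-/

namespace Pool.Agent.X64.Fast

open Pool.Agent.X64.Hex Pool.Agent.X64.NO1

variable {V : Type} (X Y : V → ℕ)

/-- The integer directed line. -/
def li (s : V × V) : IP × IP := (((X s.1 : ℤ), (Y s.1 : ℤ)), ((X s.2 : ℤ), (Y s.2 : ℤ)))

/-- The positive part of `(a - b) (c - d)`. -/
def mp (a b c d : ℕ) : ℕ := Nat.add (Nat.mul a c) (Nat.mul b d)

/-- The negative part of `(a - b) (c - d)`. -/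
def mn (a b c d : ℕ) : ℕ := Nat.add (Nat.mul a d) (Nat.mul b c)

theorem mp_sub_mn (a b c d : ℕ) : (mp a b c d : ℤ) - mn a b c d = ((a : ℤ) - b) * ((c : ℤ) - d) := by
  have h1 : mp a b c d = a * c + b * d := rfl
  have h2 : mn a b c d = a * d + b * c := rfl
  rw [h1, h2]
  push_cast
  ring

/-- Parts of the cross product of the vectors `(a - b, c - d)` and `(e - f, g - h)`. -/
def cpp (a b c d e f g h : ℕ) : ℕ := Nat.add (mp a b g h) (mn e f c d)

def cpn (a b c d e f g h : ℕ) : ℕ := Nat.add (mn a b g h) (mp e f c d)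

theorem cpp_sub (a b c d e f g h : ℕ) : (cpp a b c d e f g h : ℤ) - cpn a b c d e f g h =
    ((a : ℤ) - b) * ((g : ℤ) - h) - ((e : ℤ) - f) * ((c : ℤ) - d) := by
  have h1 : cpp a b c d e f g h = mp a b g h + mn e f c d := rfl
  have h2 : cpn a b c d e f g h = mn a b g h + mp e f c d := rfl
  have h3 := mp_sub_mn a b g h
  have h4 := mp_sub_mn e f c d
  rw [h1, h2, ← h3, ← h4]
  push_cast
  ring

/-- Parts of the cross product of the normal vectors of two lines. -/
def dp (s t : V × V) : ℕ := cpp (Y s.1) (Y s.2) (X s.2) (X s.1) (Y t.1) (Y t.2) (X t.2) (X t.1)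

def dn (s t : V × V) : ℕ := cpn (Y s.1) (Y s.2) (X s.2) (X s.1) (Y t.1) (Y t.2) (X t.2) (X t.1)

theorem dp_sub (s t : V × V) : (dp X Y s t : ℤ) - dn X Y s t =
    (aff (li X Y s)).1 * (aff (li X Y t)).2.1 - (aff (li X Y t)).1 * (aff (li X Y s)).2.1 := by
  unfold dp dn
  rw [cpp_sub]
  unfold aff li
  ring

/-- Parts of the constant of a line. -/
def kp (s : V × V) : ℕ := Nat.mul (X s.1) (Y s.2)

def kn (s : V × V) : ℕ := Nat.mul (X s.2) (Y s.1)

theorem kp_sub (s : V × V) : (kp X Y s : ℤ) - kn X Y s = (aff (li X Y s)).2.2 := by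
  have h1 : kp X Y s = X s.1 * Y s.2 := rfl
  have h2 : kn X Y s = X s.2 * Y s.1 := rfl
  rw [h1, h2]
  unfold aff li
  push_cast
  ring

/-- The inequality of `g` follows from those of `s` and `t`. -/
noncomputable def imp (s t g : V × V) : Bool :=
  an (Nat.ble (Nat.succ (dn X Y s t)) (dp X Y s t))
    (an (Nat.ble (dn X Y g t) (dp X Y g t)) (an (Nat.ble (dn X Y s g) (dp X Y s g))
      (Nat.ble (Nat.add (mn (dp X Y s t) (dn X Y s t) (kp X Y g) (kn X Y g))
        (Nat.add (mp (dp X Y g t) (dn X Y g t) (kp X Y s) (kn X Y s))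
          (mp (dp X Y s g) (dn X Y s g) (kp X Y t) (kn X Y t))))
        (Nat.add (mp (dp X Y s t) (dn X Y s t) (kp X Y g) (kn X Y g))
        (Nat.add (mn (dp X Y g t) (dn X Y g t) (kp X Y s) (kn X Y s))
          (mn (dp X Y s g) (dn X Y s g) (kp X Y t) (kn X Y t)))))))

theorem ble_iff {a b : ℕ} : Nat.ble a b = true ↔ a ≤ b := iff_of_eq Nat.ble_eq

theorem imp_spec {s t g : V × V} (h : imp X Y s t g = true) :
    impB [aff (li X Y s), aff (li X Y t)] (aff (li X Y g)) = true := by
  unfold imp at h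
  rw [an_iff, an_iff, an_iff, ble_iff, ble_iff, ble_iff, ble_iff] at h
  obtain ⟨h1, h2, h3, h4⟩ := h
  have e1 := dp_sub X Y s t
  have e2 := dp_sub X Y g t
  have e3 := dp_sub X Y s g
  have k1 := kp_sub X Y s
  have k2 := kp_sub X Y t
  have k3 := kp_sub X Y g
  have m1 := mp_sub_mn (dp X Y s t) (dn X Y s t) (kp X Y g) (kn X Y g)
  have m2 := mp_sub_mn (dp X Y g t) (dn X Y g t) (kp X Y s) (kn X Y s)
  have m3 := mp_sub_mn (dp X Y s g) (dn X Y s g) (kp X Y t) (kn X Y t)
  rw [e1, k3] at m1
  rw [e2, k1] at m2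
  rw [e3, k2] at m3
  unfold impB
  rw [List.any_eq_true]
  refine ⟨_, List.mem_cons_self, ?_⟩
  rw [List.any_eq_true]
  refine ⟨_, List.mem_cons_of_mem _ List.mem_cons_self, ?_⟩
  rw [Bool.and_eq_true, Bool.and_eq_true, Bool.and_eq_true, decide_eq_true_eq, decide_eq_true_eq,
    decide_eq_true_eq, decide_eq_true_eq]
  refine ⟨⟨⟨?_, ?_⟩, ?_⟩, ?_⟩
  · rw [← e1]
    have : ((dn X Y s t : ℕ) : ℤ) < (dp X Y s t : ℕ) := by exact_mod_cast h1
    linarith
  · rw [← e2]
    have : ((dn X Y g t : ℕ) : ℤ) ≤ (dp X Y g t : ℕ) := by exact_mod_cast h2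
    linarith
  · rw [← e3]
    have : ((dn X Y s g : ℕ) : ℤ) ≤ (dp X Y s g : ℕ) := by exact_mod_cast h3
    linarith
  · have h5 : (((mn (dp X Y s t) (dn X Y s t) (kp X Y g) (kn X Y g)) +
        ((mp (dp X Y g t) (dn X Y g t) (kp X Y s) (kn X Y s)) +
          (mp (dp X Y s g) (dn X Y s g) (kp X Y t) (kn X Y t))) : ℕ) : ℤ) ≤
        (((mp (dp X Y s t) (dn X Y s t) (kp X Y g) (kn X Y g)) +
        ((mn (dp X Y g t) (dn X Y g t) (kp X Y s) (kn X Y s)) +
          (mn (dp X Y s g) (dn X Y s g) (kp X Y t) (kn X Y t))) : ℕ) : ℤ) := by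
      exact_mod_cast h4
    push_cast at h5
    linarith

/-- A binary space partition; at a leaf the number of a cell and two lines for each of its lines. -/
inductive BP (V : Type) where
  | leaf (i : ℕ) (w : List (ℕ × ℕ))
  | node (a b : V) (l r : BP V)

/-- The check of a leaf. -/
noncomputable def lf (cs : List (V × V)) (l : List (V × V)) : List (ℕ × ℕ) → Bool :=
  @List.rec (V × V) (fun _ => List (ℕ × ℕ) → Bool) (fun _ => true)
    (fun s _ ih w => @List.rec (ℕ × ℕ) (fun _ => Bool) false
      (fun jk w' _ => @Option.rec (V × V) (fun _ => Bool) false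
        (fun c => @Option.rec (V × V) (fun _ => Bool) false
          (fun d => @Bool.rec (fun _ => Bool) false (ih w') (imp X Y c d s)) cs[jk.2]?)
        cs[jk.1]?) w) l

theorem lf_spec {cs : List (V × V)} {x : Plane} (hx : ∀ c ∈ cs, 0 ≤ ev (aff (li X Y c)) x) :
    ∀ (l : List (V × V)) (w : List (ℕ × ℕ)), lf X Y cs l w = true →
      ∀ s ∈ l, 0 ≤ ev (aff (li X Y s)) x := by
  intro l
  induction l with
  | nil => exact fun _ _ s hs => absurd hs List.not_mem_nil
  | cons s l ih =>
    intro w h
    cases w with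
    | nil => exact absurd h Bool.false_ne_true
    | cons jk w =>
      have h' : @Option.rec (V × V) (fun _ => Bool) false
        (fun c => @Option.rec (V × V) (fun _ => Bool) false
          (fun d => @Bool.rec (fun _ => Bool) false (lf X Y cs l w) (imp X Y c d s)) cs[jk.2]?)
        cs[jk.1]? = true := h
      rcases hc : cs[jk.1]? with _ | c
      · rw [hc] at h'
        exact absurd h' Bool.false_ne_true
      rcases hd : cs[jk.2]? with _ | d
      · rw [hc, hd] at h'
        exact absurd h' Bool.false_ne_true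
      rw [hc, hd] at h'
      have h2 : an (imp X Y c d s) (lf X Y cs l w) = true := h'
      rw [an_iff] at h2
      intro t ht
      rcases List.mem_cons.1 ht with rfl | ht
      · refine impB_spec (imp_spec X Y h2.1) fun e he => ?_
        rcases List.mem_cons.1 he with rfl | he
        · exact hx c (List.mem_of_getElem? hc)
        · rw [List.mem_singleton] at he
          rw [he]
          exact hx d (List.mem_of_getElem? hd)
      · exact ih w h2.2 t ht

/-- The cells of the list `R` cover the region given by the lines `cs`. -/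
noncomputable def cv (R : List (List (V × V))) (t : BP V) : List (V × V) → Bool :=
  @BP.rec V (fun _ => List (V × V) → Bool)
    (fun i w cs => @Option.rec (List (V × V)) (fun _ => Bool) false (fun l => lf X Y cs l w) R[i]?)
    (fun a b _ _ ihl ihr cs => @Bool.rec (fun _ => Bool) false (ihr ((b, a) :: cs))
      (ihl ((a, b) :: cs))) t

theorem cv_spec {R : List (List (V × V))} {x : Plane} : ∀ (t : BP V) (cs : List (V × V)),
    cv X Y R t cs = true → (∀ c ∈ cs, 0 ≤ ev (aff (li X Y c)) x) →
      ∃ l ∈ R, x ∈ Kc (l.map (li X Y)) := by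
  intro t
  induction t with
  | leaf i w =>
    intro cs h hx
    have h' : @Option.rec (List (V × V)) (fun _ => Bool) false (fun l => lf X Y cs l w) R[i]?
      = true := h
    rcases hi : R[i]? with _ | l
    · rw [hi] at h'
      exact absurd h' Bool.false_ne_true
    · rw [hi] at h'
      refine ⟨l, List.mem_of_getElem? hi, fun s hs => ?_⟩
      obtain ⟨s', hs', rfl⟩ := List.mem_map.1 hs
      have := lf_spec X Y hx l w h' s' hs'
      rwa [ev_aff] at this
  | node a b l r ihl ihr =>
    intro cs h hx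
    have h' : an (cv X Y R l ((a, b) :: cs)) (cv X Y R r ((b, a) :: cs)) = true := h
    rw [an_iff] at h'
    rcases le_total 0 (ev (aff (li X Y (a, b))) x) with h0 | h0
    · refine ihl _ h'.1 fun c hc => ?_
      rcases List.mem_cons.1 hc with rfl | hc
      · exact h0
      · exact hx c hc
    · refine ihr _ h'.2 fun c hc => ?_
      rcases List.mem_cons.1 hc with rfl | hc
      · have : ev (aff (li X Y (b, a))) x = -ev (aff (li X Y (a, b))) x := by
          unfold ev aff li
          push_cast
          ring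
        rw [this]
        linarith
      · exact hx c hc

end Pool.Agent.X64.Fast
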